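import Pool.Agent.H4.CH4

set_option autoImplicit false

namespace Pool.Agent.Results.MP_73cdf8_lc.Hard

open Pool.Agent.H11.PT Pool.Agent.H4.CH
open Pool.Agent.H21.ER (Qf ETR HH DD HH_iff HH_bd HH_slack)

theorem result : ∃ f : Qf → ℕ × List (List QB), PolyTime bits bits f ∧ ∀ φ,
    (∀ F ∈ (f φ).2, ∀ q ∈ F, q.2.2.v ≠ 0) ∧ (ETR φ ↔ CH (f φ)) := by
  refine ⟨fun φ => red (DD φ) (HH φ), PT.polyTime (by unfold red; fun_prop), fun φ => ⟨?_, ?_⟩⟩
  · simp only [red, pol, List.forall_mem_map, List.forall_mem_cons, co, bp, ds_prod, Nat.descFactorial_self]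
    exact fun _ _ => ⟨one_ne_zero, fun _ _ => Nat.factorial_ne_zero _⟩
  · rw [HH_iff, red_iff (HH_bd φ) (by simp [DD]) fun x hx i hi => by simpa [hx] using HH_slack φ hi x]

end Pool.Agent.Results.MP_73cdf8_lc.Hard
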